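import Mathlib
import Pool.Agent.H18Z.Balls

set_option autoImplicit false

namespace Pool.Agent.Results.MP_3d878b_co.AChiBigInfinite

/-- Negative answer to Q1: for every number `c` of colours and every `m` there is a finite point
set `P` in Euclidean three-space such that every colouring of `P` with `c` colours leaves a closed
ball of positive radius containing at least `m` points of `P`, all of one colour. -/
theorem result : ∀ c m : ℕ, ∃ P : Finset (EuclideanSpace ℝ (Fin 3)), ∀ col : P → Fin c,
    ∃ (z : EuclideanSpace ℝ (Fin 3)) (r : ℝ), 0 < r ∧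
      m ≤ ((P : Set (EuclideanSpace ℝ (Fin 3))) ∩ Metric.closedBall z r).ncard ∧
      ∃ k : Fin c, ∀ p : P, (p : EuclideanSpace ℝ (Fin 3)) ∈ Metric.closedBall z r →
        col p = k :=
  Pool.Agent.H18Z.Balls.main

end Pool.Agent.Results.MP_3d878b_co.AChiBigInfinite
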